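import Mathlib

/-!
Group algebra part: in `F_p[G]` for a finite abelian p-group `G` a product of more than
`∑ (p^(e i) - 1)` factors `1 - X^g` vanishes (Olson's argument).
-/

namespace H103RelDav

open Finset

/-- A family of group elements without nonempty zero-sum subfamily. -/
def ZSF {G κ : Type*} [AddCommGroup G] (f : κ → G) : Prop :=
  ∀ A : Finset κ, A.Nonempty → ∑ x ∈ A, f x ≠ 0

section ideal

variable {R : Type*} [CommRing R]

lemma add_pow_zero {I J : Ideal R} {a b : ℕ} (hI : I ^ (a + 1) = ⊥) (hJ : J ^ (b + 1) = ⊥) :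
    (I ⊔ J) ^ (a + b + 1) = ⊥ := by
  rw [← Ideal.add_eq_sup, add_pow, Ideal.sum_eq_sup, eq_bot_iff]
  apply Finset.sup_le
  intro i hi
  by_cases hn : a + 1 ≤ i
  · refine Ideal.mul_le_left.trans (Ideal.mul_le_left.trans ((Ideal.pow_le_pow_right hn).trans ?_))
    rw [hI]
  · refine Ideal.mul_le_left.trans (Ideal.mul_le_right.trans
      ((Ideal.pow_le_pow_right (show b + 1 ≤ a + b + 1 - i by lia)).trans ?_))
    rw [hJ]

lemma sum_pow_zero {ι : Type*} (s : Finset ι) (J : ι → Ideal R) (m : ι → ℕ)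
    (h : ∀ i ∈ s, J i ^ (m i + 1) = ⊥) : (s.sup J) ^ ((∑ i ∈ s, m i) + 1) = ⊥ := by
  classical
  induction s using Finset.induction_on with
  | empty => simp
  | insert a s ha ih =>
    rw [Finset.sup_insert, Finset.sum_insert ha]
    exact add_pow_zero (h a (Finset.mem_insert_self a s))
      (ih fun i hi => h i (Finset.mem_insert_of_mem hi))

end ideal

section alg

variable (p : ℕ) [Fact p.Prime] {G : Type*} [AddCommGroup G]

local instance : CharP (AddMonoidAlgebra (ZMod p) G) p :=
  charP_of_injective_algebraMap (algebraMap (ZMod p) (AddMonoidAlgebra (ZMod p) G)).injective p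

/-- The monomial `X^g`. -/
noncomputable def X (g : G) : AddMonoidAlgebra (ZMod p) G := AddMonoidAlgebra.single g 1

lemma X_zero : X p (0 : G) = 1 := rfl

lemma X_add (a b : G) : X p (a + b) = X p a * X p b := by
  simp [X, AddMonoidAlgebra.single_mul_single]

lemma X_nsmul (n : ℕ) (a : G) : X p (n • a) = X p a ^ n := by
  induction n with
  | zero => simp [X_zero]
  | succ n ih => rw [succ_nsmul, X_add, ih, pow_succ]

lemma X_sum {κ : Type*} (A : Finset κ) (f : κ → G) : X p (∑ x ∈ A, f x) = ∏ x ∈ A, X p (f x) := by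
  classical
  induction A using Finset.induction_on with
  | empty => simp [X_zero]
  | insert a s ha ih => rw [Finset.sum_insert ha, Finset.prod_insert ha, X_add, ih]

lemma one_sub_X_pow (h : ℕ) (g : G) : (1 - X p g) ^ (p ^ h) = 1 - X p ((p ^ h) • g) := by
  rw [sub_pow_char_pow, one_pow, X_nsmul]

lemma coeff_prod {κ : Type*} [Fintype κ] (f : κ → G) (hf : ZSF f) :
    (∏ x, (1 - X p (f x))).coeff 0 = 1 := by
  classical
  have h1 : ∏ x, (1 - X p (f x)) = ∑ A ∈ (univ : Finset κ).powerset,
      (∏ x ∈ A, (-X p (f x))) * ∏ x ∈ univ \ A, (1 : AddMonoidAlgebra (ZMod p) G) := by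
    rw [← Finset.prod_add]
    exact Finset.prod_congr rfl fun x _ => by ring
  have h2 : ∀ A ∈ (univ : Finset κ).powerset,
      (∏ x ∈ A, (-X p (f x))) * ∏ x ∈ univ \ A, (1 : AddMonoidAlgebra (ZMod p) G)
        = AddMonoidAlgebra.single (∑ x ∈ A, f x) ((-1 : ZMod p) ^ A.card) := by
    intro A _
    rw [Finset.prod_const_one, mul_one, Finset.prod_neg, ← X_sum]
    rcases Nat.even_or_odd A.card with hA | hA
    · rw [hA.neg_one_pow, hA.neg_one_pow, one_mul]; rfl
    · rw [hA.neg_one_pow, hA.neg_one_pow, neg_one_mul, X, ← AddMonoidAlgebra.single_neg]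
  rw [h1, Finset.sum_congr rfl h2, AddMonoidAlgebra.coeff_sum, Finsupp.finsetSum_apply,
    Finset.sum_eq_single_of_mem ∅ (by simp)]
  · simp
  · intro A _ hA
    rw [AddMonoidAlgebra.coeff_single, Finsupp.single_apply, if_neg]
    exact hf A (Finset.nonempty_iff_ne_empty.2 hA)

variable {ι : Type*} [Fintype ι]

/-- Every `1 - X^g` lies in the ideal generated by the `1 - X^(b i)` when the `b i` generate. -/
lemma one_sub_X_mem (b : ι → G) (hb : AddSubgroup.closure (Set.range b) = ⊤) (g : G) :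
    1 - X p g ∈ (univ : Finset ι).sup fun i => Ideal.span {1 - X p (b i)} := by
  set I := (univ : Finset ι).sup fun i => Ideal.span {1 - X p (b i)} with hI
  have hg : g ∈ AddSubgroup.closure (Set.range b) := by rw [hb]; trivial
  induction hg using AddSubgroup.closure_induction with
  | mem x hx =>
    obtain ⟨i, rfl⟩ := hx
    have : Ideal.span {1 - X p (b i)} ≤ I :=
      Finset.le_sup (f := fun i => Ideal.span {1 - X p (b i)}) (Finset.mem_univ i)
    exact this (Ideal.subset_span rfl)
  | zero => simp [X_zero]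
  | add x y _ _ hx hy =>
    have : 1 - X p (x + y) = (1 - X p x) + X p x * (1 - X p y) := by rw [X_add]; ring
    rw [this]
    exact I.add_mem hx (I.mul_mem_left _ hy)
  | neg x _ hx =>
    have h0 : X p (-x) * X p x = 1 := by rw [← X_add, neg_add_cancel, X_zero]
    have : 1 - X p (-x) = -(X p (-x) * (1 - X p x)) := by rw [mul_sub, h0]; ring
    rw [this]
    exact I.neg_mem (I.mul_mem_left _ hx)

/-- Olson's bound in a finite abelian p-group, with one element divisible by `p^h`. -/
lemma upper {κ : Type*} [Fintype κ] [DecidableEq κ] (b : ι → G) (e : ι → ℕ)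
    (hb : AddSubgroup.closure (Set.range b) = ⊤) (he : ∀ i, (p ^ e i) • b i = 0)
    (f : κ → G) (hf : ZSF f) (x₀ : κ) (h : ℕ) (g' : G) (hx : f x₀ = (p ^ h) • g') :
    Fintype.card κ + p ^ h ≤ (∑ i, (p ^ e i - 1)) + 1 := by
  classical
  by_contra hcon
  push Not at hcon
  set I := (univ : Finset ι).sup fun i => Ideal.span {1 - X p (b i)} with hI
  have hI0 : I ^ ((∑ i, (p ^ e i - 1)) + 1) = ⊥ := by
    refine sum_pow_zero univ _ _ fun i _ => ?_
    have h1 : p ^ e i - 1 + 1 = p ^ e i :=
      Nat.sub_add_cancel (Nat.one_le_pow _ _ (Fact.out : p.Prime).pos)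
    rw [h1, Ideal.span_singleton_pow, one_sub_X_pow, he, X_zero, sub_self]
    exact Ideal.span_singleton_eq_bot.2 rfl
  have hmem : ∏ x, (1 - X p (f x)) ∈ I ^ ((∑ i, (p ^ e i - 1)) + 1) := by
    rw [← Finset.mul_prod_erase univ _ (Finset.mem_univ x₀), hx, ← one_sub_X_pow]
    have h1 : (1 - X p g') ^ (p ^ h) ∈ I ^ (p ^ h) :=
      Ideal.pow_mem_pow (one_sub_X_mem p b hb g') _
    have h2 : ∏ x ∈ univ.erase x₀, (1 - X p (f x)) ∈ I ^ (Fintype.card κ - 1) := by
      have : ∏ x ∈ univ.erase x₀, (1 - X p (f x)) ∈ ∏ _x ∈ (univ : Finset κ).erase x₀, I :=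
        Ideal.prod_mem_prod fun x _ => one_sub_X_mem p b hb (f x)
      rwa [Finset.prod_const, Finset.card_erase_of_mem (Finset.mem_univ x₀), Finset.card_univ]
        at this
    have h3 := Ideal.mul_mem_mul h1 h2
    rw [← pow_add] at h3
    have hc : 0 < Fintype.card κ := Fintype.card_pos_iff.2 ⟨x₀⟩
    exact Ideal.pow_le_pow_right (by omega) h3
  rw [hI0, Ideal.mem_bot] at hmem
  have h4 := coeff_prod p f hf
  rw [hmem] at h4
  simp at h4

end alg

end H103RelDav
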