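import Pool.Agent.H103.RelDav.Alg

namespace H103RelDav

open Finset

section basic

variable {G : Type*} [AddCommGroup G]

lemma ZSF.comp_equiv {κ κ' : Type*} (e : κ' ≃ κ) {f : κ → G} (hf : ZSF f) : ZSF (f ∘ e) := by
  intro A hA
  have := hf (A.map e.toEmbedding) (by simpa using hA)
  simpa [Finset.sum_map] using this

lemma ZSF.map {G' κ : Type*} [AddCommGroup G'] (φ : G →+ G') (hφ : Function.Injective φ)
    {f : κ → G} (hf : ZSF f) : ZSF (fun x => φ (f x)) := by
  intro A hA h0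
  rw [← map_sum] at h0
  exact hf A hA (hφ (by rw [h0, map_zero]))

lemma ZSF.of_map {G' κ : Type*} [AddCommGroup G'] (φ : G →+ G')
    {f : κ → G} (hf : ZSF (fun x => φ (f x))) : ZSF f := by
  intro A hA h0
  apply hf A hA
  rw [← map_sum, h0, map_zero]

lemma ZSF.sumElim {G' κ₁ κ₂ : Type*} [AddCommGroup G'] (π : G →+ G') {f₁ : κ₁ → G} {f₂ : κ₂ → G}
    (h₁ : ZSF (fun x => π (f₁ x))) (h₂ : ZSF f₂) (h₀ : ∀ x, π (f₂ x) = 0) :
    ZSF (Sum.elim f₁ f₂) := by
  classical
  intro A hA h0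
  have hsplit : ∑ x ∈ A, Sum.elim f₁ f₂ x = ∑ x ∈ A.toLeft, f₁ x + ∑ x ∈ A.toRight, f₂ x := by
    conv_lhs => rw [← Finset.toLeft_disjSum_toRight (u := A)]
    rw [Finset.sum_disjSum]
    simp
  rw [hsplit] at h0
  by_cases hl : A.toLeft.Nonempty
  · have := congrArg π h0
    rw [map_add, map_sum, map_sum, map_zero, Finset.sum_eq_zero (fun x _ => h₀ x), add_zero] at this
    exact h₁ _ hl this
  · rw [Finset.not_nonempty_iff_eq_empty] at hl
    rw [hl, Finset.sum_empty, zero_add] at h0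
    refine h₂ _ ?_ h0
    rw [Finset.nonempty_iff_ne_empty]
    intro hr
    have : A = ∅ := by
      rw [← Finset.toLeft_disjSum_toRight (u := A), hl, hr]; rfl
    exact hA.ne_empty this

lemma swap_in {κ : Type*} [Fintype κ] [DecidableEq κ] {f : κ → G} (hf : ZSF f) (x₀ : κ) (a : G)
    (hx : f x₀ = -a) : ∃ f' : κ → G, ZSF f' ∧ ∑ x, f' x = a := by
  refine ⟨Function.update f x₀ (a - ∑ x ∈ univ.erase x₀, f x), ?_, ?_⟩
  · intro A hA h0
    by_cases hxA : x₀ ∈ A
    · rw [← Finset.add_sum_erase A _ hxA, Function.update_self] at h0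
      have h1 : ∑ x ∈ A.erase x₀, Function.update f x₀ (a - ∑ x ∈ univ.erase x₀, f x) x
          = ∑ x ∈ A.erase x₀, f x :=
        Finset.sum_congr rfl fun x hx => Function.update_of_ne (Finset.ne_of_mem_erase hx) _ _
      rw [h1] at h0
      have h2 : ∑ x ∈ univ.erase x₀, f x = ∑ x ∈ A.erase x₀, f x + ∑ x ∈ univ \ A, f x := by
        rw [← Finset.sum_union]
        · congr 1
          ext x; simp only [mem_erase, mem_univ, and_true, mem_union, mem_sdiff, true_and]
          by_cases hx : x = x₀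
          · subst hx; simp [hxA]
          · simp [hx, em]
        · rw [Finset.disjoint_left]
          intro x hx hx'
          exact (Finset.mem_sdiff.1 hx').2 (Finset.mem_of_mem_erase hx)
      apply hf (insert x₀ (univ \ A)) (Finset.insert_nonempty _ _)
      rw [Finset.sum_insert (by simp [hxA]), hx]
      rw [h2] at h0
      have h3 : a - ∑ x ∈ univ \ A, f x = 0 := by rw [← h0]; abel
      rw [neg_add_eq_zero, ← sub_eq_zero, h3]
    · apply hf A hA
      rw [← h0]
      refine Finset.sum_congr rfl fun x hxm => (Function.update_of_ne ?_ _ _).symm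
      intro hxx; exact hxA (hxx ▸ hxm)
  · rw [← Finset.add_sum_erase univ _ (Finset.mem_univ x₀), Function.update_self]
    have h1 : ∑ x ∈ univ.erase x₀, Function.update f x₀ (a - ∑ x ∈ univ.erase x₀, f x) x
        = ∑ x ∈ univ.erase x₀, f x :=
      Finset.sum_congr rfl fun x hx => Function.update_of_ne (Finset.ne_of_mem_erase hx) _ _
    rw [h1]; abel

lemma swap_out {κ : Type*} [Fintype κ] [DecidableEq κ] {f : κ → G} (hf : ZSF f) (x₀ : κ) :
    ZSF (Function.update f x₀ (-(∑ x, f x))) := by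
  intro A hA h0
  by_cases hxA : x₀ ∈ A
  · rw [← Finset.add_sum_erase A _ hxA, Function.update_self] at h0
    have h1 : ∑ x ∈ A.erase x₀, Function.update f x₀ (-(∑ x, f x)) x
        = ∑ x ∈ A.erase x₀, f x :=
      Finset.sum_congr rfl fun x hx => Function.update_of_ne (Finset.ne_of_mem_erase hx) _ _
    rw [h1] at h0
    apply hf (univ \ (A.erase x₀)) ⟨x₀, by simp⟩
    have h2 := Finset.sum_sdiff (Finset.subset_univ (A.erase x₀)) (f := f)
    rw [← h2] at h0
    have h3 : -(∑ x ∈ univ \ A.erase x₀, f x) = 0 := by rw [← h0]; abel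
    exact neg_eq_zero.1 h3
  · apply hf A hA
    rw [← h0]
    refine Finset.sum_congr rfl fun x hxm => (Function.update_of_ne ?_ _ _).symm
    intro hxx; exact hxA (hxx ▸ hxm)

end basic

section product

variable {p : ℕ} {ι : Type} [Fintype ι] [DecidableEq ι]

omit [Fintype ι] in
/-- Unit vectors, the `j`-th one repeated `n j - 1` times. -/
lemma unit_zsf (n : ι → ℕ) (hn : ∀ i, 0 < n i) (s : Set ι) [DecidablePred (· ∈ s)] :
    ZSF (fun x : (Σ j : s, Fin (n j - 1)) => (Pi.single (x.1 : ι) 1 : ∀ i, ZMod (n i))) := by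
  intro A hA h0
  obtain ⟨⟨j, t⟩, hjt⟩ := hA
  have h1 := congrFun h0 (j : ι)
  rw [Finset.sum_apply] at h1
  have h2 : ∀ x ∈ A, (Pi.single (x.1 : ι) 1 : ∀ i, ZMod (n i)) (j : ι)
      = if x.1 = j then (1 : ZMod (n j)) else 0 := by
    intro x _
    by_cases hx : x.1 = j
    · rw [if_pos hx, hx]; simp
    · rw [if_neg hx, Pi.single_eq_of_ne]
      intro h; exact hx (Subtype.ext h.symm)
  rw [Finset.sum_congr rfl h2, Finset.sum_boole] at h1
  rw [Pi.zero_apply, ZMod.natCast_eq_zero_iff] at h1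
  have hpos : 0 < (A.filter fun x => x.1 = j).card := by
    rw [Finset.card_pos]
    exact ⟨⟨j, t⟩, by simp [hjt]⟩
  have hle : (A.filter fun x => x.1 = j).card ≤ n j - 1 := by
    have : (A.filter fun x => x.1 = j) ⊆ (univ : Finset (Fin (n j - 1))).map
        ⟨fun t => (⟨j, t⟩ : Σ j : s, Fin (n j - 1)), fun a b h => by simpa using h⟩ := by
      rintro ⟨j', t'⟩ hx
      simp only [mem_filter] at hx
      obtain ⟨_, rfl⟩ := hx
      simp only [mem_map, mem_univ, true_and]
      exact ⟨t', rfl⟩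
    have := Finset.card_le_card this
    simpa using this
  have := Nat.le_of_dvd hpos h1
  have := hn j
  omega

/-- In `ZMod n` with `c` a unit: `-q c` once and `-c` exactly `n - 1 - q` times. -/
lemma cyclic_zsf (n q : ℕ) (hq : 0 < q) (hqn : q < n) (c : ZMod n) (hc : IsUnit c) :
    ZSF (fun x : Option (Fin (n - 1 - q)) =>
      Option.elim x (-(q • c)) (fun _ => -c)) := by
  intro A hA h0
  set w : Option (Fin (n - 1 - q)) → ℕ := fun x => Option.elim x q (fun _ => 1) with hw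
  have h1 : ∑ x ∈ A, (Option.elim x (-(q • c)) (fun _ => -c)) = -((∑ x ∈ A, w x) • c) := by
    rw [Finset.sum_smul, ← Finset.sum_neg_distrib]
    refine Finset.sum_congr rfl fun x _ => ?_
    cases x <;> simp [hw]
  rw [h1, neg_eq_zero, nsmul_eq_mul, hc.mul_left_eq_zero, ZMod.natCast_eq_zero_iff] at h0
  have hpos : 0 < ∑ x ∈ A, w x := by
    apply Finset.sum_pos _ hA
    intro x _
    cases x <;> simp [hw, hq]
  have hle : ∑ x ∈ A, w x ≤ n - 1 := by
    calc ∑ x ∈ A, w x ≤ ∑ x, w x := Finset.sum_le_univ_sum_of_nonneg (fun _ => Nat.zero_le _)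
      _ = q + (n - 1 - q) := by simp [hw, Fintype.sum_option]
      _ ≤ n - 1 := by omega
  have := Nat.le_of_dvd hpos h0
  omega

lemma zmod_dvd_of_not_isUnit (hp : p.Prime) (e : ℕ) (c : ZMod (p ^ e)) (hc : ¬ IsUnit c) :
    ∃ d : ZMod (p ^ e), c = p • d := by
  have : NeZero (p ^ e) := ⟨(pow_pos hp.pos e).ne'⟩
  have h1 : ((c.val : ℕ) : ZMod (p ^ e)) = c := ZMod.natCast_zmod_val c
  rw [← h1, ZMod.isUnit_iff_coprime] at hc
  have h2 : p ∣ c.val := by
    by_contra h
    exact hc (Nat.Coprime.pow_right e ((Nat.Prime.coprime_iff_not_dvd hp).2 h).symm)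
  obtain ⟨m, hm⟩ := h2
  refine ⟨(m : ZMod (p ^ e)), ?_⟩
  rw [← h1, hm, nsmul_eq_mul, Nat.cast_mul]

/-- The extremal family through an element of height exactly `h`. -/
lemma lower (hp : p.Prime) (e : ι → ℕ) (a g' : ∀ i, ZMod (p ^ e i)) (h : ℕ)
    (ha : a = (p ^ h) • g') (hna : ¬ ∃ g, a = (p ^ (h + 1)) • g) :
    ∃ (κ : Type) (_ : Fintype κ) (_ : DecidableEq κ) (f : κ → ∀ i, ZMod (p ^ e i)) (x₀ : κ),
      ZSF f ∧ f x₀ = -a ∧ Fintype.card κ + p ^ h = (∑ i, (p ^ e i - 1)) + 1 := by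
  classical
  obtain ⟨i₀, hi₀⟩ : ∃ i, ∀ c : ZMod (p ^ e i), a i ≠ (p ^ (h + 1)) • c := by
    by_contra hcon
    push Not at hcon
    choose c hc using hcon
    exact hna ⟨c, funext hc⟩
  have hai : a i₀ = (p ^ h) • g' i₀ := by rw [ha]; rfl
  have hunit : IsUnit (g' i₀) := by
    by_contra hu
    obtain ⟨d, hd⟩ := zmod_dvd_of_not_isUnit hp _ _ hu
    apply hi₀ d
    rw [hai, hd, ← mul_nsmul', ← pow_succ]
  have hlt : p ^ h < p ^ e i₀ := by
    by_contra hcon
    push Not at hcon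
    have hle : e i₀ ≤ h := (Nat.pow_le_pow_iff_right hp.one_lt).1 hcon
    apply hi₀ 0
    rw [hai, smul_zero]
    obtain ⟨m, rfl⟩ := Nat.exists_eq_add_of_le hle
    rw [nsmul_eq_mul, pow_add, Nat.cast_mul, ZMod.natCast_self]
    simp
  have hpos : ∀ i, 0 < p ^ e i := fun i => pow_pos hp.pos _
  let s : Set ι := {j | j ≠ i₀}
  let f₁ : Option (Fin (p ^ e i₀ - 1 - p ^ h)) → ∀ i, ZMod (p ^ e i) :=
    fun x => Option.elim x (-a) (fun _ => -g')
  let f₂ : (Σ j : s, Fin (p ^ e j - 1)) → ∀ i, ZMod (p ^ e i) := fun x => Pi.single (x.1 : ι) 1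
  refine ⟨Option (Fin (p ^ e i₀ - 1 - p ^ h)) ⊕ (Σ j : s, Fin (p ^ e j - 1)), inferInstance,
    inferInstance, Sum.elim f₁ f₂, Sum.inl none, ?_, rfl, ?_⟩
  · apply ZSF.sumElim (Pi.evalAddMonoidHom (fun i => ZMod (p ^ e i)) i₀)
    · have := cyclic_zsf (p ^ e i₀) (p ^ h) (pow_pos hp.pos h) hlt (g' i₀) hunit
      convert this using 2 with x
      cases x with
      | none => simp [f₁, hai]
      | some t => simp [f₁]
    · exact unit_zsf (fun i => p ^ e i) hpos s
    · intro x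
      simp only [Pi.evalAddMonoidHom_apply]
      exact Pi.single_eq_of_ne (fun h => x.1.2 h.symm) _
  · rw [Fintype.card_sum, Fintype.card_option, Fintype.card_fin, Fintype.card_sigma]
    simp only [Fintype.card_fin]
    have h1 : ∑ j : s, (p ^ e (j : ι) - 1) = ∑ j ∈ univ.erase i₀, (p ^ e j - 1) := by
      exact (Finset.sum_subtype (univ.erase i₀) (p := fun j => j ∈ s)
        (by intro x; simp [s]) (fun j => p ^ e j - 1)).symm
    have h2 := Finset.add_sum_erase univ (fun j => p ^ e j - 1) (Finset.mem_univ i₀)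
    rw [h1, ← h2]
    have := hpos i₀
    omega

end product

end H103RelDav
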