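import Pool.Agent.H103.RelDav.Comb

/-!
Coordinates, heights and the value of the relative Davenport constants of finite abelian p-groups.
-/

namespace H103RelDav

open Finset

/-- The small `S`-relative Davenport constant `d_S(G)`: the largest length `n` of a sequence
`f 0, ..., f (n-1)` in `G` whose sum lies in `S` and which has no nonempty zero-sum subsequence. -/
noncomputable def dRel {G : Type*} [AddCommGroup G] (S : Set G) : ℕ :=
  sSup {n : ℕ | ∃ f : Fin n → G, (∑ i, f i) ∈ S ∧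
    ∀ A : Finset (Fin n), A.Nonempty → ∑ i ∈ A, f i ≠ 0}

/-- A coset, regarded as a subset of `G`. -/
def cosetSet {G : Type*} [AddCommGroup G] (H : AddSubgroup G) (α : G ⧸ H) : Set G :=
  {g | (QuotientAddGroup.mk g : G ⧸ H) = α}

section main

variable {G : Type*} [AddCommGroup G]

lemma mem_of_family {κ : Type*} [Fintype κ] {S : Set G} (f : κ → G) (hf : ZSF f)
    (hs : ∑ x, f x ∈ S) : Fintype.card κ ∈ {n : ℕ | ∃ f : Fin n → G, (∑ i, f i) ∈ S ∧
    ∀ A : Finset (Fin n), A.Nonempty → ∑ i ∈ A, f i ≠ 0} := by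
  let e := (Fintype.equivFin κ).symm
  refine ⟨f ∘ e, ?_, hf.comp_equiv e⟩
  rw [show ∑ i, (f ∘ e) i = ∑ x, f x from Equiv.sum_comp e f]
  exact hs

variable {p : ℕ} {ι : Type} [Fintype ι]

/-- Coordinates of a finite abelian p-group. -/
lemma exists_coord (hp : p.Prime) (G : Type*) [AddCommGroup G] [Finite G]
    (hG : ∃ m, Nat.card G = p ^ m) :
    ∃ (ι : Type) (_ : Fintype ι) (e : ι → ℕ), Nonempty (G ≃+ ∀ i, ZMod (p ^ e i)) := by
  classical
  obtain ⟨ι, hι, n, hn, ⟨φ⟩⟩ := AddCommGroup.equiv_directSum_zmod_of_finite' G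
  obtain ⟨m, hm⟩ := hG
  let ψ : G ≃+ ∀ i, ZMod (n i) := φ.trans (DirectSum.addEquivProd fun i => ZMod (n i))
  have hcard : ∏ i, n i = p ^ m := by
    rw [← hm, Nat.card_congr ψ.toEquiv, Nat.card_pi]
    simp
  have hdvd : ∀ i, ∃ k, n i = p ^ k := by
    intro i
    have : n i ∣ p ^ m := hcard ▸ Finset.dvd_prod_of_mem n (Finset.mem_univ i)
    obtain ⟨k, _, hk⟩ := (Nat.dvd_prime_pow hp).1 this
    exact ⟨k, hk⟩
  choose e he using hdvd
  have : n = fun i => p ^ e i := funext he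
  subst this
  exact ⟨ι, hι, e, ⟨ψ⟩⟩

lemma gens (e : ι → ℕ) [DecidableEq ι] (hp : p.Prime) (φ : G ≃+ ∀ i, ZMod (p ^ e i)) :
    AddSubgroup.closure (Set.range fun i => φ.symm (Pi.single i 1)) = ⊤ := by
  rw [eq_top_iff]
  intro g _
  have hv : ∀ v : (∀ i, ZMod (p ^ e i)),
      φ.symm v ∈ AddSubgroup.closure (Set.range fun i => φ.symm (Pi.single i 1)) := by
    intro v
    have : v = ∑ i, (v i).val • (Pi.single i 1 : ∀ i, ZMod (p ^ e i)) := by
      funext j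
      have : NeZero (p ^ e j) := ⟨(pow_pos hp.pos _).ne'⟩
      rw [Finset.sum_apply, Finset.sum_eq_single j]
      · simp
      · intro i _ hij
        rw [Pi.smul_apply, Pi.single_eq_of_ne hij.symm, smul_zero]
      · simp
    rw [this, map_sum]
    refine AddSubgroup.sum_mem _ fun i _ => ?_
    rw [map_nsmul]
    exact AddSubgroup.nsmul_mem _ (AddSubgroup.subset_closure (Set.mem_range_self i)) _
  have := hv (φ g)
  rwa [AddEquiv.symm_apply_apply] at this

omit [Fintype ι] in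
lemma gens_order (e : ι → ℕ) [DecidableEq ι] (φ : G ≃+ ∀ i, ZMod (p ^ e i)) (i : ι) :
    (p ^ e i) • (φ.symm (Pi.single i 1)) = 0 := by
  rw [← map_nsmul]
  have : (p ^ e i) • (Pi.single i 1 : ∀ i, ZMod (p ^ e i)) = 0 := by
    rw [← Pi.single_smul, nsmul_eq_mul, ZMod.natCast_self, zero_mul, Pi.single_zero]
  rw [this, map_zero]

/-- Upper bound in coordinates. -/
lemma upper' [DecidableEq ι] (hp : p.Prime) (e : ι → ℕ) (φ : G ≃+ ∀ i, ZMod (p ^ e i))
    {κ : Type*} [Fintype κ] [DecidableEq κ] (f : κ → G) (hf : ZSF f) (x₀ : κ) (h : ℕ)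
    (hx : ∃ x, ∑ x, f x = (p ^ h) • x) :
    Fintype.card κ + p ^ h ≤ (∑ i, (p ^ e i - 1)) + 1 := by
  have : Fact p.Prime := ⟨hp⟩
  obtain ⟨x, hx⟩ := hx
  refine upper p (fun i => φ.symm (Pi.single i 1)) e (gens e hp φ) (gens_order e φ) _
    (swap_out hf x₀) x₀ h (-x) ?_
  rw [Function.update_self, hx, smul_neg]

/-- Lower bound in coordinates. -/
lemma lower' [DecidableEq ι] (hp : p.Prime) (e : ι → ℕ) (φ : G ≃+ ∀ i, ZMod (p ^ e i))
    (a : G) (h : ℕ) (ha : ∃ x, a = (p ^ h) • x) (hna : ¬ ∃ g, a = (p ^ (h + 1)) • g) :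
    ∃ (κ : Type) (_ : Fintype κ) (f : κ → G),
      ZSF f ∧ ∑ x, f x = a ∧ Fintype.card κ + p ^ h = (∑ i, (p ^ e i - 1)) + 1 := by
  obtain ⟨x, hx⟩ := ha
  obtain ⟨κ, hκ, hd, f, x₀, hf, hfx, hc⟩ := lower hp e (φ a) (φ x) h (by rw [hx, map_nsmul])
    (by
      rintro ⟨g, hg⟩
      refine hna ⟨φ.symm g, ?_⟩
      rw [← map_nsmul, ← hg, AddEquiv.symm_apply_apply])
  have hf2 : ZSF (fun x => φ.symm.toAddMonoidHom (f x)) :=
    hf.map φ.symm.toAddMonoidHom φ.symm.injective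
  obtain ⟨f', hf', hs⟩ := swap_in hf2 x₀ a (by simp [hfx])
  exact ⟨κ, hκ, f', hf', hs, hc⟩

/-- All elements of the coset are divisible by `q`. -/
def CosetDvd (H : AddSubgroup G) (α : G ⧸ H) (q : ℕ) : Prop :=
  ∀ g ∈ cosetSet H α, ∃ x, g = q • x

lemma exists_rep (H : AddSubgroup G) (α : G ⧸ H) : ∃ a, a ∈ cosetSet H α :=
  QuotientAddGroup.mk_surjective α

lemma dvd_of_multiple (H : AddSubgroup G) (α β : G ⧸ H) (hβ : β ∈ AddSubgroup.zmultiples α)
    (q : ℕ) (hα : CosetDvd H α q) : CosetDvd H β q := by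
  obtain ⟨k, hk⟩ := AddSubgroup.mem_zmultiples_iff.1 hβ
  obtain ⟨a, ha⟩ := exists_rep H α
  intro b hb
  have hmem : b - k • a ∈ H := by
    rw [← QuotientAddGroup.eq_zero_iff, QuotientAddGroup.mk_sub, QuotientAddGroup.mk_zsmul]
    rw [show (QuotientAddGroup.mk b : G ⧸ H) = β from hb,
      show (QuotientAddGroup.mk a : G ⧸ H) = α from ha, hk, sub_self]
  obtain ⟨x, hx⟩ := hα a ha
  obtain ⟨y, hy⟩ := hα (a + (b - k • a)) (by
    change (QuotientAddGroup.mk (a + (b - k • a)) : G ⧸ H) = α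
    rw [QuotientAddGroup.mk_add, (QuotientAddGroup.eq_zero_iff _).2 hmem, add_zero]
    exact ha)
  refine ⟨y - x + k • x, ?_⟩
  have h1 : b = (a + (b - k • a)) - a + k • a := by abel
  rw [h1, hy, hx, smul_add, smul_sub, smul_comm k q x]

lemma length_bound (hp : p.Prime) [DecidableEq ι] (e : ι → ℕ) (φ : G ≃+ ∀ i, ZMod (p ^ e i))
    {S : Set G} (h : ℕ) (hS : ∀ g ∈ S, ∃ x, g = (p ^ h) • x) {n : ℕ} (hn0 : 0 < n)
    (f : Fin n → G) (hs : ∑ i, f i ∈ S) (hf : ZSF f) :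
    n + p ^ h ≤ (∑ i, (p ^ e i - 1)) + 1 := by
  have := upper' hp e φ f hf ⟨0, hn0⟩ h (hS _ hs)
  rwa [Fintype.card_fin] at this

lemma bdd (hp : p.Prime) [DecidableEq ι] (e : ι → ℕ) (φ : G ≃+ ∀ i, ZMod (p ^ e i)) (S : Set G) :
    ∑ i, (p ^ e i - 1) ∈ upperBounds {n : ℕ | ∃ f : Fin n → G, (∑ i, f i) ∈ S ∧
    ∀ A : Finset (Fin n), A.Nonempty → ∑ i ∈ A, f i ≠ 0} := by
  rintro n ⟨f, hs, hf⟩
  rcases Nat.eq_zero_or_pos n with rfl | hn
  · exact Nat.zero_le _
  · have := length_bound hp e φ (S := Set.univ) 0 (fun g _ => ⟨g, by simp⟩) hn f trivial hf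
    simpa using this

/-- The value of `d_α(G)`. -/
lemma value (hp : p.Prime) [DecidableEq ι] (e : ι → ℕ) (φ : G ≃+ ∀ i, ZMod (p ^ e i))
    (H : AddSubgroup G) (α : G ⧸ H) (h : ℕ) (h1 : CosetDvd H α (p ^ h))
    (h2 : ¬ CosetDvd H α (p ^ (h + 1))) :
    dRel (cosetSet H α) + p ^ h = (∑ i, (p ^ e i - 1)) + 1 := by
  unfold CosetDvd at h2
  push Not at h2
  obtain ⟨a, haα, hna⟩ := h2
  obtain ⟨κ, _, f, hf, hs, hc⟩ := lower' hp e φ a h (h1 a haα) (by
    rintro ⟨g, hg⟩; exact hna g hg)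
  have hmem := mem_of_family (S := cosetSet H α) f hf (by rw [hs]; exact haα)
  have hle : Fintype.card κ ≤ dRel (cosetSet H α) := le_csSup ⟨_, bdd hp e φ _⟩ hmem
  have hge : dRel (cosetSet H α) ≤ Fintype.card κ := by
    apply csSup_le' 
    rintro n ⟨f', hs', hf'⟩
    rcases Nat.eq_zero_or_pos n with rfl | hn
    · exact Nat.zero_le _
    · have := length_bound hp e φ h h1 hn f' hs' hf'
      omega
  omega

/-- Some power of `p` does not divide a coset other than `{0}`. -/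
lemma exists_height (hp : p.Prime) [DecidableEq ι] (e : ι → ℕ) (φ : G ≃+ ∀ i, ZMod (p ^ e i))
    (H : AddSubgroup G) (α : G ⧸ H) (hα : ∃ a ∈ cosetSet H α, a ≠ 0) :
    ∃ h, CosetDvd H α (p ^ h) ∧ ¬ CosetDvd H α (p ^ (h + 1)) := by
  classical
  have hex : ∃ m, ¬ CosetDvd H α (p ^ m) := by
    obtain ⟨a, ha, ha0⟩ := hα
    refine ⟨∑ i, e i, fun hd => ha0 ?_⟩
    obtain ⟨x, hx⟩ := hd a ha
    have : φ a = 0 := by
      rw [hx, map_nsmul]
      funext i
      obtain ⟨m, hm⟩ := Nat.exists_eq_add_of_le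
        (Finset.single_le_sum (fun i _ => Nat.zero_le (e i)) (Finset.mem_univ i))
      rw [Pi.smul_apply, hm, nsmul_eq_mul, pow_add, Nat.cast_mul, ZMod.natCast_self]
      simp
    exact φ.injective (by rw [this, map_zero])
  have h0 : Nat.find hex ≠ 0 := by
    intro h
    have := Nat.find_spec hex
    rw [h] at this
    exact this fun g _ => ⟨g, by simp⟩
  obtain ⟨m, hm⟩ := Nat.exists_eq_succ_of_ne_zero h0
  refine ⟨m, ?_, ?_⟩
  · have := Nat.find_min hex (m := m) (by omega)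
    push Not at this
    exact this
  · have := Nat.find_spec hex
    rwa [hm] at this

end main

end H103RelDav
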